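import Mathlib

set_option autoImplicit false

namespace Pool.Agent.Results.MP_ce40ad_nt.TwoSquareFactors

/-- a factor of a sum of two squares that is coprime to its cofactor is a sum of two squares -/
theorem sumsq_of_coprime (a b s t : ℕ) (ha : 0 < a) (hb : 0 < b) (hab : Nat.Coprime a b)
    (h : a * b = s ^ 2 + t ^ 2) : ∃ u v : ℕ, a = u ^ 2 + v ^ 2 := by
  rw [Nat.eq_sq_add_sq_iff]
  intro q hq hq4
  have hqp : q.Prime := Nat.prime_of_mem_primeFactors hq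
  have hqa : q ∣ a := Nat.dvd_of_mem_primeFactors hq
  have hfull := (Nat.eq_sq_add_sq_iff (n := a * b)).1 ⟨s, t, h⟩
  have hmem : q ∈ (a * b).primeFactors := by
    rw [Nat.mem_primeFactors]
    exact ⟨hqp, dvd_mul_of_dvd_left hqa b, by positivity⟩
  have h2 := hfull q hmem hq4
  have := Fact.mk hqp
  have hqb : ¬ q ∣ b := fun hb' => by
    have := Nat.dvd_gcd hqa hb'
    rw [hab] at this
    exact hqp.one_lt.ne' (Nat.dvd_one.1 this)
  rw [padicValNat.mul ha.ne' hb.ne', padicValNat.eq_zero_of_not_dvd hqb, add_zero] at h2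
  exact h2

/-- integer version: coprime positive factors of a sum of two squares are sums of two squares -/
theorem sumsq_int (a b s t : ℤ) (ha : 0 < a) (hb : 0 < b) (hab : IsCoprime a b)
    (h : a * b = s ^ 2 + t ^ 2) :
    (∃ u v : ℤ, a = u ^ 2 + v ^ 2) ∧ (∃ u v : ℤ, b = u ^ 2 + v ^ 2) := by
  lift a to ℕ using ha.le
  lift b to ℕ using hb.le
  have hab' : Nat.Coprime a b := by
    exact_mod_cast Nat.isCoprime_iff_coprime.1 hab
  have h' : a * b = s.natAbs ^ 2 + t.natAbs ^ 2 := by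
    zify
    rw [sq_abs, sq_abs]
    exact h
  have ha' : 0 < a := by exact_mod_cast ha
  have hb' : 0 < b := by exact_mod_cast hb
  obtain ⟨u, v, huv⟩ := sumsq_of_coprime a b _ _ ha' hb' hab' h'
  obtain ⟨u', v', huv'⟩ := sumsq_of_coprime b a _ _ hb' ha' hab'.symm (by rw [mul_comm]; exact h')
  exact ⟨⟨u, v, by exact_mod_cast huv⟩, ⟨u', v', by exact_mod_cast huv'⟩⟩

/-- a sum of two squares is not `3` modulo `4` -/
theorem sumsq_mod4 (a : ℤ) (h : ∃ u v : ℤ, a = u ^ 2 + v ^ 2) : a % 4 ≠ 3 := by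
  obtain ⟨u, v, rfl⟩ := h
  have hu : u % 4 = 0 ∨ u % 4 = 1 ∨ u % 4 = 2 ∨ u % 4 = 3 := by omega
  have hv : v % 4 = 0 ∨ v % 4 = 1 ∨ v % 4 = 2 ∨ v % 4 = 3 := by omega
  rcases hu with hu | hu | hu | hu <;> rcases hv with hv | hv | hv | hv <;>
    simp [pow_two, Int.add_emod, Int.mul_emod, hu, hv]

/-- modulo 16 the number `w` is `1, 3, 11` or `13` -/
theorem mod16 (x w z : ℤ) (h : x ^ 4 + z ^ 2 + 1 = w ^ 3) :
    w % 16 = 1 ∨ w % 16 = 3 ∨ w % 16 = 11 ∨ w % 16 = 13 := by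
  have h1 : ((x : ZMod 16)) ^ 4 + (z : ZMod 16) ^ 2 + 1 = (w : ZMod 16) ^ 3 := by
    have := congrArg (Int.cast : ℤ → ZMod 16) h
    push_cast at this
    exact this
  have key : ∀ X Z W : ZMod 16, X ^ 4 + Z ^ 2 + 1 = W ^ 3 →
      W = 1 ∨ W = 3 ∨ W = 11 ∨ W = 13 := by decide
  have h2 := key _ _ _ h1
  have c : ∀ k : ℤ, 0 ≤ k → k < 16 → ((w : ZMod 16) = (k : ZMod 16) → w % 16 = k) := by
    intro k hk0 hk hw
    have := (ZMod.intCast_eq_intCast_iff w k 16).1 hw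
    have h3 : w % 16 = k % 16 := this
    omega
  rcases h2 with h2 | h2 | h2 | h2
  · exact Or.inl (c 1 (by norm_num) (by norm_num) (by exact_mod_cast h2))
  · exact Or.inr (Or.inl (c 3 (by norm_num) (by norm_num) (by exact_mod_cast h2)))
  · exact Or.inr (Or.inr (Or.inl (c 11 (by norm_num) (by norm_num) (by exact_mod_cast h2))))
  · exact Or.inr (Or.inr (Or.inr (c 13 (by norm_num) (by norm_num) (by exact_mod_cast h2))))

/-- Let `x ^ 4 + y ^ 3 + z ^ 2 + 1 = 0`. Either `y` is `5` modulo `8`, not `2` modulo `3`, and both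
factors `-y - 1` and `y ^ 2 - y + 1` of `x ^ 4 + z ^ 2` are sums of two squares, or `y` is `35` or
`47` modulo `48` and both factors are three times a sum of two squares. -/
theorem result (x y z : ℤ) (h : x ^ 4 + y ^ 3 + z ^ 2 + 1 = 0) :
    (y % 3 ≠ 2 ∧ y % 8 = 5 ∧ (∃ u v : ℤ, -y - 1 = u ^ 2 + v ^ 2) ∧
      (∃ u v : ℤ, y ^ 2 - y + 1 = u ^ 2 + v ^ 2)) ∨
    ((y % 48 = 35 ∨ y % 48 = 47) ∧ (∃ u v : ℤ, -y - 1 = 3 * (u ^ 2 + v ^ 2)) ∧
      (∃ u v : ℤ, y ^ 2 - y + 1 = 3 * (u ^ 2 + v ^ 2))) := by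
  obtain ⟨w, rfl⟩ : ∃ w : ℤ, y = -w := ⟨-y, by ring⟩
  have hw : x ^ 4 + z ^ 2 + 1 = w ^ 3 := by linarith [h, show (-w) ^ 3 = -w ^ 3 by ring]
  have h16 := mod16 x w z hw
  have hfac : (w - 1) * (w ^ 2 + w + 1) = (x ^ 2) ^ 2 + z ^ 2 := by linarith [hw, show (w - 1) * (w ^ 2 + w + 1) = w ^ 3 - 1 by ring, show (x ^ 2) ^ 2 = x ^ 4 by ring]
  have hq : 0 < w ^ 2 + w + 1 := by nlinarith [sq_nonneg (2 * w + 1)]
  have hw1 : 1 ≤ w := by
    by_contra hlt
    push Not at hlt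
    have : (w - 1) * (w ^ 2 + w + 1) < 0 := mul_neg_of_neg_of_pos (by linarith) hq
    nlinarith [sq_nonneg (x ^ 2), sq_nonneg z]
  by_cases h3 : w % 3 = 1
  · right
    obtain ⟨m, hm⟩ : ∃ m : ℤ, w = 3 * m + 1 := ⟨w / 3, by omega⟩
    subst hm
    have hm0 : 0 ≤ m := by omega
    -- 3 divides x and z
    have h9 : (x ^ 2) ^ 2 + z ^ 2 = 9 * (m * (3 * m ^ 2 + 3 * m + 1)) := by
      rw [← hfac]; ring
    have hx3 : x % 3 = 0 ∧ z % 3 = 0 := by
      have e : ((x ^ 2) ^ 2 + z ^ 2) % 3 = 0 := by rw [h9]; omega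
      have hx : x % 3 = 0 ∨ x % 3 = 1 ∨ x % 3 = 2 := by omega
      have hz : z % 3 = 0 ∨ z % 3 = 1 ∨ z % 3 = 2 := by omega
      rcases hx with hx | hx | hx <;> rcases hz with hz | hz | hz <;>
        simp [pow_two, Int.add_emod, Int.mul_emod, hx, hz] at e ⊢
    obtain ⟨x', rfl⟩ : ∃ x' : ℤ, x = 3 * x' := ⟨x / 3, by omega⟩
    obtain ⟨z', rfl⟩ : ∃ z' : ℤ, z = 3 * z' := ⟨z / 3, by omega⟩
    have hf : m * (3 * m ^ 2 + 3 * m + 1) = (3 * x' ^ 2) ^ 2 + z' ^ 2 := by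
      have : (9 : ℤ) * (m * (3 * m ^ 2 + 3 * m + 1)) = 9 * ((3 * x' ^ 2) ^ 2 + z' ^ 2) := by
        rw [← h9]; ring
      linarith
    rcases hm0.eq_or_lt with hm0 | hm0
    · subst hm0
      refine ⟨by norm_num, ⟨0, 0, by norm_num⟩, ⟨1, 0, by norm_num⟩⟩
    · have hcop : IsCoprime m (3 * m ^ 2 + 3 * m + 1) := ⟨-(3 * m + 3), 1, by ring⟩
      obtain ⟨ha, hb⟩ := sumsq_int m (3 * m ^ 2 + 3 * m + 1) _ _ hm0 (by positivity) hcop hf
      have ha4 := sumsq_mod4 _ ha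
      have hb4 := sumsq_mod4 _ hb
      have hm4 : m % 4 = 0 := by
        have hm' : m % 4 = 0 ∨ m % 4 = 1 ∨ m % 4 = 2 ∨ m % 4 = 3 := by omega
        rcases hm' with hm' | hm' | hm' | hm'
        · exact hm'
        · exfalso; apply hb4; simp [pow_two, Int.add_emod, Int.mul_emod, hm']
        · exfalso; apply hb4; simp [pow_two, Int.add_emod, Int.mul_emod, hm']
        · exact absurd hm' ha4
      refine ⟨by omega, ?_, ?_⟩
      · obtain ⟨u, v, huv⟩ := ha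
        exact ⟨u, v, by rw [← huv]; ring⟩
      · obtain ⟨u, v, huv⟩ := hb
        exact ⟨u, v, by rw [← huv]; ring⟩
  · left
    have hw1' : 0 < w - 1 := by
      rcases hw1.eq_or_lt with h1 | h1
      · subst h1; norm_num at h3
      · linarith
    have hcop : IsCoprime (w - 1) (w ^ 2 + w + 1) := by
      have h31 : w % 3 = 0 ∨ w % 3 = 2 := by omega
      rcases h31 with h31 | h31
      · obtain ⟨k, rfl⟩ : ∃ k : ℤ, w = 3 * k := ⟨w / 3, by omega⟩
        -- w^2+w+1 = (w+2)(w-1)+3 ; 3k - (w-1) = 1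
        refine ⟨-(1 + k * (3 * k + 2)), k, by ring⟩
      · obtain ⟨k, rfl⟩ : ∃ k : ℤ, w = 3 * k + 2 := ⟨w / 3, by omega⟩
        refine ⟨1 + k * (3 * k + 2 + 2), -k, by ring⟩
    obtain ⟨ha, hb⟩ := sumsq_int (w - 1) (w ^ 2 + w + 1) _ _ hw1' hq hcop hfac
    have ha4 := sumsq_mod4 _ ha
    have hb4 := sumsq_mod4 _ hb
    have hm4 : w % 4 = 3 := by
      have hm' : w % 4 = 0 ∨ w % 4 = 1 ∨ w % 4 = 2 ∨ w % 4 = 3 := by omega
      rcases hm' with hm' | hm' | hm' | hm'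
      · exfalso; apply ha4; omega
      · exfalso; apply hb4; simp [pow_two, Int.add_emod, Int.mul_emod, hm']
      · exfalso; apply hb4; simp [pow_two, Int.add_emod, Int.mul_emod, hm']
      · exact hm'
    refine ⟨by omega, by omega, ?_, ?_⟩
    · obtain ⟨u, v, huv⟩ := ha
      exact ⟨u, v, by rw [← huv]; ring⟩
    · obtain ⟨u, v, huv⟩ := hb
      exact ⟨u, v, by rw [← huv]; ring⟩

end Pool.Agent.Results.MP_ce40ad_nt.TwoSquareFactors
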